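import Pool.Agent.Q207.EP.Main
import Pool.Agent.Y120.H.Fml

/-!
# The equality of periods of arbitrary families is decided by a primitive recursive predicate at almost all integral points

Let `X_i → S_i`, `1 ≤ i ≤ k`, be families of varieties over open parts of the line over `ℚ`, near rational points `x_i = 0` (where they
may degenerate). Their periods are polynomials, with complex coefficients, in `log x_i` and in G-functions with rational
coefficients. We consider the equality problem for the expressions of degree at most `d`, with integral coefficients, in the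
periods of the fibres at the points `x_i = 1 / t_i` and in finitely many arbitrary further constants (other periods, algebraic
numbers, ...). The input is the tuple `t` of integers and a pair of expressions, with coefficients of any size.

There is a primitive recursive predicate `Q(t, E, F)` which implies that the values of `E` and `F` are equal, for all `t`, and
which is equivalent to the equality for all pairs of expressions at all `t` outside a sparse set.

The reason: outside the sparse set all relations of degree at most `d` between the periods come from functional relations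
(theorem of the starting files), and the specialisations of the functional relations are described by finitely many
linear conditions on the coefficients of the expression, which are polynomial in `t` and have integral coefficients.
-/

set_option autoImplicit false

open PowerSeries

namespace Pool.Agent.Results.MP_bbe012_lc.ArbitraryFamilies

/-! ### Families of G-functions -/

/-- an integer polynomial as a power series with rational coefficients -/
noncomputable def toQ (P : Polynomial ℤ) : PowerSeries ℚ := ((P.map (Int.castRingHom ℚ) : Polynomial ℚ) : PowerSeries ℚ)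

/-- the power series `P(u^e)` -/
noncomputable def atPow (e : ℕ) (P : Polynomial ℤ) : PowerSeries ℂ :=
  ((Polynomial.expand ℂ e (P.map (Int.castRingHom ℂ)) : Polynomial ℂ) : PowerSeries ℂ)

/-- the matrices `G_s` over `ℤ[x]` with `T^s y^(s) = G_s y` for all solutions `y` of `T y' = A y` -/
noncomputable def iter {r : ℕ} (T : Polynomial ℤ) (A : Fin r → Fin r → Polynomial ℤ) : ℕ → Fin r → Fin r → Polynomial ℤ
  | 0 => fun i j => if i = j then 1 else 0
  | s + 1 => fun i j => T * Polynomial.derivative (iter T A s i j) + ∑ l, iter T A s i l * A l j -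
      (s : Polynomial ℤ) * (Polynomial.derivative T * iter T A s i j)

/-- The system `T y' = A y` has a fundamental matrix of solutions of the form `u^(-M) ∑_n Φ_n(u) (log u)^n` with
`u^e = x` and convergent power series `Φ_n`: the point `0` is regular or a regular singularity with rational
exponents. -/
def QuasiUnipotent {r : ℕ} (T : Polynomial ℤ) (A : Fin r → Fin r → Polynomial ℤ) : Prop :=
  ∃ (e M : ℕ) (K : ℝ) (Φ : Matrix (Fin r) (Fin r) (Polynomial (PowerSeries ℂ))), 1 ≤ e ∧ Φ.det ≠ 0 ∧
    (∀ i j n m, ‖coeff m ((Φ i j).coeff n)‖ ≤ K ^ (m + 1)) ∧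
    ∀ i j n, atPow e T * (X * PowerSeries.derivative ℂ ((Φ i j).coeff n) +
        ((n : PowerSeries ℂ) + 1) * (Φ i j).coeff (n + 1) - (M : PowerSeries ℂ) * (Φ i j).coeff n) =
      (e : PowerSeries ℂ) * X ^ e * ∑ l, atPow e (A i l) * (Φ l j).coeff n

/-- `h_1, ..., h_r` are G-functions with rational coefficients which solve the differential system `T y' = A y`, with
the conditions of Siegel and Galochkin, and `0` is a regular point or a regular singularity with rational exponents of
the system. -/
structure GFamily {r : ℕ} (T : Polynomial ℤ) (A : Fin r → Fin r → Polynomial ℤ) (h : Fin r → PowerSeries ℚ) : Prop where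
  /-- the denominator is not zero -/
  T_ne : T ≠ 0
  /-- the differential equations -/
  ode : ∀ i, toQ T * PowerSeries.derivative ℚ (h i) = ∑ j, toQ (A i j) * h j
  /-- the coefficients have geometric growth -/
  size : ∃ C : ℝ, ∀ i m, |((coeff m (h i) : ℚ) : ℝ)| ≤ C ^ (m + 1)
  /-- the common denominators of the coefficients have geometric growth -/
  den : ∃ C : ℝ, ∀ m : ℕ, ∃ d : ℕ, 0 < d ∧ (d : ℝ) ≤ C ^ (m + 1) ∧ ∀ i, ∀ j ≤ m, ∃ a : ℤ, (d : ℚ) * coeff j (h i) = a
  /-- Galochkin's condition: the common denominators of the matrices `G_s / s!` have geometric growth -/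
  galochkin : ∃ C : ℝ, ∀ m : ℕ, ∃ d : ℕ, 0 < d ∧ (d : ℝ) ≤ C ^ (m + 1) ∧ ∀ s ≤ m, ∀ i j,
    ∃ H : Polynomial ℤ, (d : Polynomial ℤ) * iter T A s i j = (s.factorial : Polynomial ℤ) * H
  /-- the local exponents at `0` are rational and the singularity is regular -/
  regular : QuasiUnipotent T A

/-! ### Expressions in periods -/

section
variable {k n g : ℕ}

/-- An expression is a finite sum of terms. The term `(a, c, L)` is the product of the integer `a`, of the constant with the
number `c` and of the periods with the names in the list `L`; the name `(i, j)` is that of the `j`-th period of the `i`-th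
family. -/
abbrev Expression (k n g : ℕ) : Type := List (ℤ × Fin g × List (Fin k × Fin n))

/-- the expression has degree at most `d` in the periods -/
def HasDegree (d : ℕ) (E : Expression k n g) : Prop := ∀ x ∈ E, x.2.2.length ≤ d

/-- The `j`-th period of the fibre at `1 / t_i` of the `i`-th family: the value of the polynomial `P i j` at `log t_i` and at the
numbers `h_{i,l}(1 / t_i)`. -/
noncomputable def period {ρ : Fin k → ℕ} (h : ∀ i, Fin (ρ i) → PowerSeries ℚ)
    (P : ∀ i, Fin n → MvPolynomial (Option (Fin (ρ i))) ℂ) (t : Fin k → ℕ) (v : Fin k × Fin n) : ℂ :=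
  MvPolynomial.aeval (fun o : Option (Fin (ρ v.1)) => o.elim ((Real.log (t v.1) : ℝ) : ℂ)
    fun l => ((∑' m : ℕ, ((coeff m (h v.1 l) : ℚ) : ℝ) * (1 / (t v.1 : ℝ)) ^ m : ℝ) : ℂ)) (P v.1 v.2)

/-- the value of an expression at the tuple `t`; the constants are `ξ_1, …, ξ_g` -/
noncomputable def value {ρ : Fin k → ℕ} (h : ∀ i, Fin (ρ i) → PowerSeries ℚ)
    (P : ∀ i, Fin n → MvPolynomial (Option (Fin (ρ i))) ℂ) (ξ : Fin g → ℂ) (t : Fin k → ℕ) (E : Expression k n g) : ℂ :=
  (E.map fun x => (x.1 : ℂ) * (ξ x.2.1 * (x.2.2.map (period h P t)).prod)).sum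

/-- The predicate `Q` decides the equality of the values at `t` of all expressions of degree at most `d`. -/
def Decides {ρ : Fin k → ℕ} (h : ∀ i, Fin (ρ i) → PowerSeries ℚ)
    (P : ∀ i, Fin n → MvPolynomial (Option (Fin (ρ i))) ℂ) (ξ : Fin g → ℂ) (d : ℕ)
    (Q : (Fin k → ℕ) × Expression k n g × Expression k n g → Prop) (t : Fin k → ℕ) : Prop :=
  ∀ E F : Expression k n g, HasDegree d E → HasDegree d F → (value h P ξ t E = value h P ξ t F ↔ Q (t, E, F))

end

theorem iter_eq {r : ℕ} (T : Polynomial ℤ) (A : Fin r → Fin r → Polynomial ℤ) (s : ℕ) :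
    iter T A s = Pool.Agent.Y120.GH.itm T A s := by
  induction s with
  | zero => rfl
  | succ s ih =>
    funext i j
    rw [iter, Pool.Agent.Y120.GH.itm, ih]

theorem qu_eq {r : ℕ} {T : Polynomial ℤ} {A : Fin r → Fin r → Polynomial ℤ} (h : QuasiUnipotent T A) :
    Pool.Agent.Y120.GH.QU0 T A := by
  obtain ⟨e, M, K, Φ, he, hdet, hc, heq⟩ := h
  have he0 : e ≠ 0 := by omega
  refine ⟨e, he0, M, K, Φ, hc, fun i j n => ?_, hdet⟩
  have h1 := heq i j n
  simp only [atPow] at h1
  rw [Pool.Agent.Y120.GH.expand_poly he0]
  simp only [Pool.Agent.Y120.GH.expand_poly he0]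
  exact h1

theorem fam {r : ℕ} {T : Polynomial ℤ} {A : Fin r → Fin r → Polynomial ℤ} {h : Fin r → PowerSeries ℚ}
    (hG : GFamily T A h) (δ : ℕ) : Pool.Agent.Y120.R.Fam δ h :=
  ⟨hG.size, Pool.Agent.Y120.GH.family_main hG.T_ne hG.ode hG.size hG.den (by
    obtain ⟨C, hC⟩ := hG.galochkin
    refine ⟨C, fun m => ?_⟩
    obtain ⟨d, h1, h2, h3⟩ := hC m
    refine ⟨d, h1, h2, fun s hs i' j' => ?_⟩
    rw [← iter_eq]
    exact h3 s hs i' j') (qu_eq hG.regular) δ⟩

/-- Let `h_i`, `1 ≤ i ≤ k`, be families of G-functions over `ℚ` (with the conditions of Siegel and Galochkin, regular singular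
with rational exponents at `0`), and let `d`, `e`, `n`, `g` be given. There is `c > 0` such that for all polynomials `P_ij`,
`j ≤ n`, of degree at most `e` with complex coefficients (the periods of the fibre at `x_i` of the `i`-th family are
`P_ij(log x_i, h_i(x_i))`) and all complex constants `ξ_1, …, ξ_g` there are `C₀` and a primitive recursive predicate `Q` with the
following properties. If `Q(t, E, F)`, then the expressions `E` and `F` of degree at most `d` have the same value at `t`, for
all `t`. For all but `C₀ N^(k-1) ∑_i (1 + N / (x_i + N)^c)` integral points `t` of each box `∏_i (x_i, x_i + N]` the predicate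
`Q` decides the equality of the values of all expressions of degree at most `d`, whatever the size of their coefficients. -/
theorem result (k n d e g : ℕ) (ρ : Fin k → ℕ) (T : Fin k → Polynomial ℤ)
    (A : ∀ i, Fin (ρ i) → Fin (ρ i) → Polynomial ℤ) (h : ∀ i, Fin (ρ i) → PowerSeries ℚ)
    (hG : ∀ i, GFamily (T i) (A i) (h i)) :
    ∃ c : ℝ, 0 < c ∧ ∀ P : ∀ i, Fin n → MvPolynomial (Option (Fin (ρ i))) ℂ, (∀ i j, (P i j).totalDegree ≤ e) →
      ∀ ξ : Fin g → ℂ, ∃ (C₀ : ℝ) (Q : (Fin k → ℕ) × Expression k n g × Expression k n g → Prop), PrimrecPred Q ∧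
        (∀ t E F, HasDegree d E → HasDegree d F → Q (t, E, F) → value h P ξ t E = value h P ξ t F) ∧
        ∀ (x : Fin k → ℕ) (N : ℕ), 1 ≤ N →
        (({t : Fin k → ℕ | (∀ i, x i < t i ∧ t i ≤ x i + N) ∧ ¬ Decides h P ξ d Q t}.ncard : ℕ) : ℝ) ≤
          C₀ * (N : ℝ) ^ (k - 1) * ∑ i, (1 + N / ((x i : ℝ) + N) ^ c) := by
  classical
  let nm : Fin k × Fin n → Σ i : Fin k, Fin ((fun _ : Fin k => n) i) := fun v => ⟨v.1, v.2⟩
  obtain ⟨c, hc, hmain⟩ := Q207.EP.main (n := fun _ : Fin k => n) d e g nm fun i => fam (hG i) (d * e)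
  refine ⟨c, hc, fun P hP ξ => ?_⟩
  obtain ⟨C₀, Q, hQ, hs, hcount⟩ := hmain P hP ξ
  have hper : ∀ (t : Fin k → ℕ) (v : Fin k × Fin n),
      Pool.Agent.Y120.R.pv (n := fun _ : Fin k => n) P h (fun i => (t i : ℝ)) (nm v) = period h P t v := by
    intro t v
    unfold Pool.Agent.Y120.R.pv Pool.Agent.Y120.R.pf period
    rw [MvPolynomial.aeval_rename]
    congr 1
  have hval : ∀ (t : Fin k → ℕ) (E : Expression k n g),
      Q207.EP.val nm ξ (Pool.Agent.Y120.R.pv (n := fun _ : Fin k => n) P h fun i => (t i : ℝ)) E = value h P ξ t E := by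
    intro t E
    unfold Q207.EP.val value
    simp only [hper]
  refine ⟨C₀, Q, hQ, fun t E F hE hF hq => ?_, fun x N hN => ?_⟩
  · rw [← hval, ← hval]
    exact hs t E F hE hF hq
  have hfin : {t : Fin k → ℕ | (∀ i, x i < t i ∧ t i ≤ x i + N) ∧ ¬ Decides h P ξ d Q t}.Finite := by
    refine (Set.finite_Iic (fun i : Fin k => x i + N)).subset ?_
    intro t ht i
    exact (ht.1 i).2
  rw [Set.ncard_eq_toFinset_card _ hfin]
  refine hcount x N hN _ fun t ht => ?_
  obtain ⟨hbox, hbad⟩ := hfin.mem_toFinset.1 ht
  refine ⟨hbox, ?_⟩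
  unfold Decides at hbad
  push Not at hbad
  obtain ⟨E, F, hE, hF, hEF⟩ := hbad
  have h1 : value h P ξ t E = value h P ξ t F ∧ ¬ Q (t, E, F) := by
    rcases hEF with h2 | h2
    · exact h2
    · exact absurd (by rw [← hval, ← hval]; exact hs t E F hE hF h2.2) h2.1
  refine ⟨E, F, hE, hF, ?_, h1.2⟩
  rw [hval, hval]
  exact h1.1

end Pool.Agent.Results.MP_bbe012_lc.ArbitraryFamilies
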