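import Pool.Agent.Q189.EP.Num

/-!
# A numerical equality test for periods of punctured lines

Let `a_1, …, a_r` be distinct nonzero integers. The periods of the fundamental groupoid of
`ℙ¹ ∖ {0, 1 / a_1, …, 1 / a_r, ∞}` between `0` and `y = 1 / x` are, up to `2πi`, the polynomials in `log x` and in the
hyperlogarithms `L_w(y)`, the iterated integrals from `0` to `y` of words in the forms `dy / y` and `dy / (1 - a_i y)`,
the last of which is not `dy / y`. All polynomials in these periods at points `1 / x_1, …, 1 / x_k` are linear combinations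
of the products `π_b = ∏_j (log x_j) ^ (e_j) L_(w_j)(1 / x_j)`.

The theorem is about the values `∑_b P_b(π, x) π_b`, where the `P_b` are polynomials with integral coefficients. For
almost all tuples of algebraic integers `x_j` of degree at most `m` and conjugates at most `T`, two such values, with
polynomials of degree at most `d` and coefficients of absolute value at most `H`, are equal if and only if they are
formally equal, and this is decided by the comparison of any approximations of them with the precision `H ^ (-B)`: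
the values are equal if and only if the approximations differ by at most `2 H ^ (-B)`.
-/

set_option autoImplicit false

open PowerSeries

namespace Pool.Agent.Results.MP_bbe012_lc.ComparingDigits

/-- The coefficients of the hyperlogarithm of a word, that is of the iterated integral from `0` of the forms `dy / y` (for
the letter `none`) and `dy / (1 - a_i y)` (for the letter `some i`); the first letter is the outermost integration. -/
noncomputable def co {r : ℕ} (a : Fin r → ℤ) : List (Option (Fin r)) → ℕ → ℚ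
  | [], m => if m = 0 then 1 else 0
  | none :: w, m => co a w m / m
  | some i :: w, m => (∑ l ∈ Finset.range m, (a i : ℚ) ^ (m - 1 - l) * co a w l) / m

/-- the hyperlogarithm of a word -/
noncomputable def L {r : ℕ} (a : Fin r → ℤ) (w : List (Option (Fin r))) (y : ℂ) : ℂ := ∑' m : ℕ, (co a w m : ℂ) * y ^ m

/-- the words of length at most `W` whose last letter is not `none` -/
abbrev Word (r W : ℕ) : Type := {w : List (Option (Fin r)) // w.length ≤ W ∧ w.getLast? ≠ some none}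

/-- there are finitely many words -/
noncomputable instance (r W : ℕ) : Fintype (Word r W) := inferInstanceAs (Fintype (Pool.Agent.Y119.ML.WI r W))

/-- the indices: for every point an exponent of the logarithm and a word -/
abbrev Idx {k : ℕ} (r : Fin k → ℕ) (W : ℕ) : Type := ∀ j, Fin (W + 1) × Word (r j) W

/-- the product `∏_j ℓ_j ^ (e_j) L_(w_j)(1 / x_j)` -/
noncomputable def prod {k : ℕ} {r : Fin k → ℕ} (a : ∀ j, Fin (r j) → ℤ) {W : ℕ} (x ℓ : Fin k → ℂ) (b : Idx r W) : ℂ :=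
  ∏ j, (ℓ j ^ ((b j).1 : ℕ) * L (a j) (b j).2 (1 / x j))

/-- the algebraic integers of degree at most `m` all of whose conjugates have absolute value at most `T` -/
def Ints (m T : ℕ) : Set ℂ :=
  {α | IsIntegral ℤ α ∧ (minpoly ℚ α).natDegree ≤ m ∧ ∀ z : ℂ, Polynomial.aeval z (minpoly ℚ α) = 0 → ‖z‖ ≤ T}

/-- the point with the coordinates `θ` and `x` -/
def pt {k : ℕ} (θ : ℂ) (x : Fin k → ℂ) : Option (Fin k) → ℂ := fun o => o.elim θ x

/-- The value `∑_b P_b(π, x) π_b` of the expression `P` -/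
noncomputable def val {k : ℕ} {r : Fin k → ℕ} (a : ∀ j, Fin (r j) → ℤ) {W : ℕ} (x ℓ : Fin k → ℂ)
    (P : Idx r W → MvPolynomial (Option (Fin k)) ℤ) : ℂ :=
  ∑ b, MvPolynomial.aeval (pt (Real.pi : ℂ) x) (P b) * prod a x ℓ b

/-- the expressions of degree at most `d` and height at most `H` -/
def Expr {k : ℕ} {r : Fin k → ℕ} {W : ℕ} (d : ℕ) (H : ℝ) (P : Idx r W → MvPolynomial (Option (Fin k)) ℤ) : Prop :=
  (∀ b, (P b).totalDegree ≤ d) ∧ ∀ b e, |(((P b).coeff e : ℤ) : ℝ)| ≤ H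

/-- The test at the height `H` with the precision `H ^ (-B)` is correct, for all determinations `ℓ_j` of `log x_j` with
`|ℓ_j| ≤ H`, and only the formally equal expressions have the same value. -/
def Correct {k : ℕ} {r : Fin k → ℕ} (a : ∀ j, Fin (r j) → ℤ) (W d B : ℕ) (x : Fin k → ℂ) (H : ℝ) : Prop :=
  ∀ ℓ : Fin k → ℂ, (∀ j, Complex.exp (ℓ j) = x j) → (∀ j, ‖ℓ j‖ ≤ H) →
    ∀ P Q : Idx r W → MvPolynomial (Option (Fin k)) ℤ, Expr d H P → Expr d H Q →
      (val a x ℓ P = val a x ℓ Q ↔ ∀ b z, MvPolynomial.aeval (pt z x) (P b) = MvPolynomial.aeval (pt z x) (Q b)) ∧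
      ∀ u v : ℂ, H ^ B * ‖u - val a x ℓ P‖ ≤ 1 → H ^ B * ‖v - val a x ℓ Q‖ ≤ 1 →
        (val a x ℓ P = val a x ℓ Q ↔ H ^ B * ‖u - v‖ ≤ 2)

theorem co_eq {r : ℕ} (a : Fin r → ℤ) (w : List (Option (Fin r))) (m : ℕ) :
    co a w m = coeff m (Pool.Agent.Y119.ML.LL a 0 w) := by
  induction w generalizing m with
  | nil =>
    show _ = coeff m (1 : ℚ⟦X⟧)
    rw [coeff_one]
    rfl
  | cons o w ih =>
    rcases o with _ | i
    · show co a w m / m = coeff m (Pool.Agent.Y119.ML.In (Pool.Agent.Y119.ML.UU a 0 none * Pool.Agent.Y119.ML.LL a 0 w))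
      rw [Pool.Agent.Q189.HL.UU_none, one_mul, Pool.Agent.Y119.ML.In, coeff_mk, ih]
    · show (∑ l ∈ Finset.range m, (a i : ℚ) ^ (m - 1 - l) * co a w l) / m =
        coeff m (Pool.Agent.Y119.ML.In (Pool.Agent.Y119.ML.UU a 0 (some i) * Pool.Agent.Y119.ML.LL a 0 w))
      have h5 : Pool.Agent.Y119.ML.geo ((0 : ℕ) : ℤ) = 1 := Pool.Agent.Q189.HL.geo_zero
      have h6 : Pool.Agent.Y119.ML.geo (((0 : ℕ) : ℤ) + a i) = Pool.Agent.Y119.ML.geo (a i) := by simp
      have h7 : Pool.Agent.Y119.ML.UU a 0 (some i) = X * Pool.Agent.Y119.ML.geo (a i) := by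
        show X * Pool.Agent.Y119.ML.geo ((0 : ℕ) : ℤ) * Pool.Agent.Y119.ML.geo (((0 : ℕ) : ℤ) + a i) = _
        rw [h5, h6, mul_one]
      rw [Pool.Agent.Y119.ML.In, coeff_mk, h7]
      congr 1
      rcases m with _ | m
      · rw [mul_assoc, coeff_zero_X_mul]
        simp
      · rw [mul_assoc, coeff_succ_X_mul, mul_comm, coeff_mul, Finset.Nat.sum_antidiagonal_eq_sum_range_succ_mk]
        refine Finset.sum_congr rfl fun l hl => ?_
        rw [ih, Pool.Agent.Y119.ML.geo, coeff_mk, mul_comm]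
        rfl

theorem L_eq {r : ℕ} (a : Fin r → ℤ) (w : List (Option (Fin r))) (y : ℂ) :
    L a w y = Pool.Agent.Y916.Al.evc y (Pool.Agent.Y119.ML.LL a 0 w) := by
  unfold L Pool.Agent.Y916.Al.evc
  exact tsum_congr fun m => by rw [co_eq]

/-- equal numbers have close approximations -/
theorem close {A : ℝ} (hA : 0 ≤ A) {u v p q : ℂ} (hu : A * ‖u - p‖ ≤ 1) (hv : A * ‖v - q‖ ≤ 1) (h : p = q) :
    A * ‖u - v‖ ≤ 2 := by
  subst h
  have h1 : ‖u - v‖ ≤ ‖u - p‖ + ‖v - p‖ := by
    calc ‖u - v‖ = ‖(u - p) - (v - p)‖ := by congr 1; ring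
      _ ≤ _ := norm_sub_le _ _
  calc A * ‖u - v‖ ≤ A * (‖u - p‖ + ‖v - p‖) := mul_le_mul_of_nonneg_left h1 hA
    _ = A * ‖u - p‖ + A * ‖v - p‖ := by ring
    _ ≤ 2 := by linarith

/-- Let `a_1, …, a_k` be finite families of distinct nonzero integers. For all `W`, `d`, `m ≥ 1` there are `B`, `C` and
`c > 0` such that for all `T ≥ 1`: (1) for every sufficiently large `H₁`, for all but at most `C T ^ (-c) |Ints m T| ^ k` of
the tuples `x ∈ (Ints m T)^k` the test is correct for all `H` with `H₁ ≤ H ≤ H₁ ^ exp (T ^ c)`; (2) all but at most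
`C T ^ (-c) |Ints m T| ^ k` of the tuples have the property that there are arbitrarily large `N` such that, for all but at
most `T ^ (-c) N` of the `s < N`, the test is correct for all `H` with `2 ^ (2 ^ s) ≤ H ≤ 2 ^ (2 ^ (s + 1))`. -/
theorem result (k : ℕ) (r : Fin k → ℕ) (a : ∀ j, Fin (r j) → ℤ) (ha : ∀ j, Function.Injective (a j))
    (h0 : ∀ j i, a j i ≠ 0) (W d m : ℕ) (hm : 1 ≤ m) :
    ∃ (B : ℕ) (C c : ℝ), 0 < c ∧ ∀ T : ℕ, 1 ≤ T →
    (∃ H₀ : ℝ, ∀ H₁ : ℝ, H₀ ≤ H₁ →
      (({x : Fin k → ℂ | (∀ j, x j ∈ Ints m T) ∧ ¬ ∀ H : ℝ, H₁ ≤ H → H ≤ H₁ ^ Real.exp ((T : ℝ) ^ c) →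
        Correct a W d B x H}.ncard : ℕ) : ℝ) ≤ C * (T : ℝ) ^ (-c) * (((Ints m T).ncard : ℕ) : ℝ) ^ k) ∧
    (({x : Fin k → ℂ | (∀ j, x j ∈ Ints m T) ∧ ¬ ∀ N₀ : ℕ, ∃ N, N₀ ≤ N ∧
      (({s : ℕ | s < N ∧ ¬ ∀ H : ℝ, 2 ^ (2 ^ s) ≤ H → H ≤ 2 ^ (2 ^ (s + 1)) → Correct a W d B x H}.ncard : ℕ) : ℝ) ≤
        (T : ℝ) ^ (-c) * N}.ncard : ℕ) : ℝ) ≤ C * (T : ℝ) ^ (-c) * (((Ints m T).ncard : ℕ) : ℝ) ^ k := by
  refine Pool.Agent.Q189.EP.torT a ha h0 W m d 2 0 hm (by norm_num) Pool.Agent.TH456.TM.measT_pi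
    (fun B x H => Correct a W d B x H) (fun B₀ => ⟨2 * B₀ + 1, fun T hT => ⟨5, fun x H hH _ _ hg => ?_⟩⟩) ?_
  · have hH0 : 0 ≤ H := by linarith
    have hH4 : H ≤ H ^ 2 := le_self_pow₀ (by linarith) (by norm_num)
    intro ℓ hℓ hℓH P Q hP hQ
    have key : (∃ b z, MvPolynomial.aeval (pt z x) (P b) ≠ MvPolynomial.aeval (pt z x) (Q b)) →
        1 ≤ H ^ (2 * B₀) * ‖val a x ℓ P - val a x ℓ Q‖ := by
      rintro ⟨b, z, hb⟩
      have h1 := hg ℓ hℓ (fun j => (hℓH j).trans hH4) (fun b => P b - Q b)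
        (fun b => (MvPolynomial.totalDegree_sub _ _).trans (max_le (hP.1 b) (hQ.1 b)))
        (fun b e => by
          rw [MvPolynomial.coeff_sub]
          push_cast
          refine (abs_sub _ _).trans ?_
          have := hP.2 b e
          have := hQ.2 b e
          nlinarith) b ⟨z, by
            rw [map_sub]
            exact sub_ne_zero.2 hb⟩
      rw [pow_mul]
      refine h1.trans (le_of_eq ?_)
      congr 2
      unfold val prod
      simp only [L_eq, map_sub, sub_mul, Finset.sum_sub_distrib]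
      rfl
    have key2 : val a x ℓ P = val a x ℓ Q → ∀ b z, MvPolynomial.aeval (pt z x) (P b) = MvPolynomial.aeval (pt z x) (Q b) := by
      intro h b z
      by_contra hb
      have h2 := key ⟨b, z, hb⟩
      rw [h, sub_self, norm_zero, mul_zero] at h2
      linarith
    have key3 : (∀ b z, MvPolynomial.aeval (pt z x) (P b) = MvPolynomial.aeval (pt z x) (Q b)) →
        val a x ℓ P = val a x ℓ Q := by
      intro h
      unfold val
      exact Finset.sum_congr rfl fun b _ => by rw [h b]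
    refine ⟨⟨key2, key3⟩, fun u v hu hv => ⟨close (by positivity) hu hv, fun h => ?_⟩⟩
    by_contra hne
    have h2 := key (by
      by_contra hcon
      push Not at hcon
      exact hne (key3 hcon))
    have h3 : ‖val a x ℓ P - val a x ℓ Q‖ ≤ ‖u - val a x ℓ P‖ + ‖u - v‖ + ‖v - val a x ℓ Q‖ := by
      calc ‖val a x ℓ P - val a x ℓ Q‖ = ‖-(u - val a x ℓ P) + (u - v) + (v - val a x ℓ Q)‖ := by congr 1; ring
        _ ≤ ‖-(u - val a x ℓ P)‖ + ‖u - v‖ + ‖v - val a x ℓ Q‖ := norm_add₃_le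
        _ = _ := by rw [norm_neg]
    have h4 : H * 1 ≤ 4 := by
      calc H * 1 ≤ H * (H ^ (2 * B₀) * ‖val a x ℓ P - val a x ℓ Q‖) := mul_le_mul_of_nonneg_left h2 hH0
        _ = H ^ (2 * B₀ + 1) * ‖val a x ℓ P - val a x ℓ Q‖ := by rw [pow_succ]; ring
        _ ≤ H ^ (2 * B₀ + 1) * (‖u - val a x ℓ P‖ + ‖u - v‖ + ‖v - val a x ℓ Q‖) :=
          mul_le_mul_of_nonneg_left h3 (by positivity)
        _ ≤ 4 := by rw [mul_add, mul_add]; linarith
    linarith
  · intro B x H H' h1 h2 h3 hg ℓ hℓ hℓH P Q hP hQ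
    have hH0 : 0 ≤ H := by linarith
    have h4 : H' ^ B ≤ H ^ (2 * B) := by
      rw [pow_mul]
      exact pow_le_pow_left₀ (by linarith) h3 _
    obtain ⟨g1, g2⟩ := hg ℓ hℓ (fun j => (hℓH j).trans h2) P Q ⟨hP.1, fun b e => (hP.2 b e).trans h2⟩
      ⟨hQ.1, fun b e => (hQ.2 b e).trans h2⟩
    refine ⟨g1, fun u v hu hv => ⟨close (by positivity) hu hv, fun h => ?_⟩⟩
    exact (g2 u v ((mul_le_mul_of_nonneg_right h4 (norm_nonneg _)).trans hu)
      ((mul_le_mul_of_nonneg_right h4 (norm_nonneg _)).trans hv)).2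
      ((mul_le_mul_of_nonneg_right h4 (norm_nonneg _)).trans h)

end Pool.Agent.Results.MP_bbe012_lc.ComparingDigits
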