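import Pool.Agent.Q138.PS.WI
import Pool.Agent.Q138.PS.WA
import Pool.Agent.Q138.PS.WJ
import Pool.Agent.Q138.AJ.Rbbe012

/-!
# Equality of periods in families, at the rational parameters close to given real numbers

Expressions are integral polynomials in `π` and the periods `K(s)`, `E(s)`, `K(1-s)`, `E(1-s)` of the Legendre curves with
`s = (q_l - α_j) / (γ_j - α_j)`, `log q_l`, `Li_1(q_l), …, Li_w(q_l)`, at rational parameters `q_1, …, q_n ∈ [a, b] ⊂ (0, 1)`. The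
errorless test `test` of the starting result has as input two expressions and approximations of their values with error at
most `δ`; it is never wrong, and it gives no answer if the expressions are not formally equal (modulo the Legendre relations and
the algebraic relations of `π`, i.e. none) and the approximations differ by at most `2 δ`. A tuple `q` with denominators at
most `T` is in `NoAnswer` if this happens for some pair of expressions of degree at most `d` in each variable with coefficients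
of size at most `T ^ A`. We show that only the points `z` of a small set have such tuples among their good approximations.

* For given `w`, `d`, `A`, `[a, b]` and `ε > 0` there is `B` such that for all `θ > 0`, outside a set of `z ∈ ℝ^n` of Hausdorff
  dimension at most `(2 (n - 1) + ε) / θ`, for all large `T` the test with precision `T ^ (-B)` gives an answer for ALL pairs of
  expressions at ALL `q` with denominators at most `T` and `|q_j - z_j| ≤ T ^ (-θ)` for all `j`. For `n = 1` the dimension is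
  at most `ε / θ`; for `θ < 2` almost every `z` has such approximations `q` for all large `T`.
* Outside a set of Hausdorff dimension ZERO every `z ∈ ℝ^n` has this property, for all `w`, `d`, `A` and `[a, b]`, with
  some `B` and `θ`.
-/

set_option autoImplicit false

namespace Pool.Agent.Results.MP_bbe012_lc.EqualityNearGivenPoints

open Filter Pool.Agent.Q138.PS Pool.Agent.Q138.AJ.Rbbe012

theorem mono {N n w d : ℕ} {α γ : Fin N → ℝ} {ξ : Fin 0 → ℂ} {a b A B T T' : ℝ} (h1 : max 1 (2 ^ max B 0) ≤ T)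
    (h2 : T ≤ T') (h3 : T' ≤ 2 * T) :
    NoAnswer N n w d α γ ξ a b A T (T ^ (-(max B 0 + 1))) ⊆ NoAnswer N n w d α γ ξ a b (max A 0) T' (T' ^ (-B)) := by
  have h4 : 1 ≤ T := (le_max_left _ _).trans h1
  have h5 : T ^ (-(max B 0 + 1)) ≤ T' ^ (-B) := num_value h4 ((le_max_right _ _).trans h1) h2 h3
  rintro q ⟨hq, P₁, P₂, hd, hc, v₁, v₂, e1, e2, ht⟩
  refine ⟨fun l => ⟨(hq l).1, (hq l).2.1, (hq l).2.2.trans h2⟩, P₁, P₂, hd,
    fun s => ⟨(hc s).1.trans (num_coeff h4 h2), (hc s).2.trans (num_coeff h4 h2)⟩, v₁, v₂, e1.trans h5, e2.trans h5, ?_⟩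
  unfold test at ht ⊢
  by_cases hf : FormallyEqual d ξ P₁ P₂
  · rw [if_pos hf] at ht
    exact absurd ht (by simp)
  · rw [if_neg hf] at ht ⊢
    rw [if_neg]
    by_cases hv : 2 * T ^ (-(max B 0 + 1)) < ‖v₁ - v₂‖
    · rw [if_pos hv] at ht
      exact absurd ht (by simp)
    · intro hcon
      exact hv (by linarith)

theorem mono2 {N n w d : ℕ} {α γ : Fin N → ℝ} {ξ : Fin 0 → ℂ} {a a' b b' A A' T δ : ℝ} (h1 : a' ≤ a) (h2 : b ≤ b')
    (h3 : A ≤ A') (hT : 1 ≤ T) : NoAnswer N n w d α γ ξ a b A T δ ⊆ NoAnswer N n w d α γ ξ a' b' A' T δ := by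
  rintro q ⟨hq, P₁, P₂, hd, hc, v₁, v₂, e1, e2, ht⟩
  have h4 : T ^ A ≤ T ^ A' := Real.rpow_le_rpow_of_exponent_le hT h3
  exact ⟨fun l => ⟨h1.trans (hq l).1, (hq l).2.1.trans h2, (hq l).2.2⟩, P₁, P₂, hd,
    fun s => ⟨(hc s).1.trans h4, (hc s).2.trans h4⟩, v₁, v₂, e1, e2, ht⟩

/-- a rational number below `a` and above finitely many smaller numbers -/
theorem rat_below {N : ℕ} (α : Fin N → ℝ) {a : ℝ} (h : ∀ j, α j < a) : ∃ x : ℚ, (x : ℝ) < a ∧ ∀ j, α j < x := by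
  obtain ⟨m, hm1, hm2⟩ : ∃ m : ℝ, m < a ∧ ∀ l, α l ≤ m := by
    rcases Nat.eq_zero_or_pos N with hk | hk
    · subst hk
      exact ⟨a - 1, by linarith, fun l => Fin.elim0 l⟩
    · haveI : Nonempty (Fin N) := ⟨⟨0, hk⟩⟩
      refine ⟨Finset.univ.sup' Finset.univ_nonempty fun l => α l, ?_, fun l =>
        Finset.le_sup' (fun l => α l) (Finset.mem_univ l)⟩
      rw [Finset.sup'_lt_iff]
      exact fun l _ => h l
  obtain ⟨x, hx1, hx2⟩ := exists_rat_btwn hm1
  exact ⟨x, hx2, fun j => (hm2 j).trans_lt hx1⟩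

/-- **Theorem.** -/
theorem result {N : ℕ} (n : ℕ) (hn : 1 ≤ n) (α γ : Fin N → ℝ) (hα : StrictAnti α) (hγ : StrictMono γ)
    (hα0 : ∀ j, 0 < α j) (hγ1 : ∀ j, γ j < 1) (ξ : Fin 0 → ℂ) :
    (∀ (w d : ℕ) (A a b ε : ℝ), 0 < a → a < b → b < 1 → (∀ j, α j < a ∧ b < γ j) → 0 < ε → ∃ B : ℝ, ∀ θ : ℝ, 0 < θ →
      ∃ Z : Set (Fin n → ℝ), dimH Z ≤ ENNReal.ofReal ((2 * ((n : ℝ) - 1) + ε) / θ) ∧ ∀ z, z ∉ Z → ∀ᶠ T : ℝ in atTop,
        ∀ q ∈ NoAnswer N n w d α γ ξ a b A T (T ^ (-B)), ∃ j, T ^ (-θ) < |(q j : ℝ) - z j|) ∧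
    ∃ Z : Set (Fin n → ℝ), dimH Z = 0 ∧ ∀ z, z ∉ Z → ∀ (w d : ℕ) (A a b : ℝ), 0 < a → a < b → b < 1 →
      (∀ j, α j < a ∧ b < γ j) → ∃ B θ : ℝ, 0 < θ ∧
      ∀ᶠ T : ℝ in atTop, ∀ q ∈ NoAnswer N n w d α γ ξ a b A T (T ^ (-B)), ∃ j, T ^ (-θ) < |(q j : ℝ) - z j| := by
  constructor
  · intro w d A a b ε ha hab hb hj hε
    obtain ⟨-, -, B, C, h⟩ := Pool.Agent.Q138.AJ.Rbbe012.result 0 n w d hn α γ hα hγ hα0 hγ1 a b ha hab hb hj (max A 0) ε hε
    exact ⟨max B 0 + 1, fun θ hθ => far_rat (fun T => NoAnswer N n w d α γ ξ a b A T (T ^ (-(max B 0 + 1))))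
      (fun T => NoAnswer N n w d α γ ξ a b (max A 0) T (T ^ (-B))) θ _ C 1 (max 1 (2 ^ max B 0)) hθ
      (dim_nonneg hn hε.le) (fun T hT => h T hT ξ) fun T T' h1 h2 h3 => mono h1 h2 h3⟩
  · obtain ⟨Z, hZ, hz⟩ := zero_rat (n := n) (J := ℕ × ℕ × ℕ × {i : ℚ × ℚ // 0 < (i.1 : ℝ) ∧ (i.1 : ℝ) < (i.2 : ℝ) ∧
        (i.2 : ℝ) < 1 ∧ ∀ j, α j < (i.1 : ℝ) ∧ (i.2 : ℝ) < γ j})
      (fun i B T => NoAnswer N n i.1 i.2.1 α γ ξ (i.2.2.2.1.1 : ℝ) (i.2.2.2.1.2 : ℝ) (i.2.2.1 : ℝ) T (T ^ (-B))) (by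
        rintro ⟨w, d, A, ⟨⟨a, b⟩, ha, hab, hb, hj⟩⟩
        obtain ⟨-, -, B, C, h⟩ := Pool.Agent.Q138.AJ.Rbbe012.result 0 n w d hn α γ hα hγ hα0 hγ1 (a : ℝ) (b : ℝ) ha hab hb hj
          (max (A : ℝ) 0) 1 one_pos
        exact ⟨max B 0 + 1, fun T => NoAnswer N n w d α γ ξ a b (max (A : ℝ) 0) T (T ^ (-B)), _, C, 1, max 1 (2 ^ max B 0),
          dim_nonneg hn (by norm_num : (0 : ℝ) ≤ 1), fun T hT => h T hT ξ, fun T T' h1 h2 h3 => mono h1 h2 h3⟩)
    refine ⟨Z, hZ, fun z hzZ w d A a b ha hab hb hj => ?_⟩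
    obtain ⟨x, hx1, hx2⟩ := rat_below (Fin.cons 0 α : Fin (N + 1) → ℝ) (a := a) (by
      intro j
      refine Fin.cases ha (fun j => (hj j).1) j)
    obtain ⟨y, hy1, hy2⟩ := rat_below (Fin.cons (-1) (fun j => - γ j) : Fin (N + 1) → ℝ) (a := -b) (by
      intro j
      refine Fin.cases ?_ (fun j => ?_) j
      · simp only [Fin.cons_zero]
        linarith
      · have := (hj j).2
        simp only [Fin.cons_succ]
        linarith)
    have hx0 : (0 : ℝ) < x := hx2 0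
    have hy0 : (-1 : ℝ) < y := hy2 0
    have hxj : ∀ j, α j < (x : ℝ) := fun j => hx2 j.succ
    have hyj : ∀ j, - γ j < (y : ℝ) := fun j => hy2 j.succ
    obtain ⟨B, θ, hθ, h⟩ := hz z hzZ (w, d, ⌈A⌉₊, ⟨(x, -y), hx0, by push_cast; linarith, by push_cast; linarith,
      fun j => ⟨hxj j, by have := hyj j; push_cast; linarith⟩⟩)
    refine ⟨B, θ, hθ, ?_⟩
    filter_upwards [h, eventually_ge_atTop 1] with T hT hT1
    exact fun q hq => hT q (mono2 hx1.le (by push_cast; linarith) (Nat.le_ceil A) hT1 hq)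

end Pool.Agent.Results.MP_bbe012_lc.EqualityNearGivenPoints
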