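import Pool.Agent.Q246.OS.Fin
import Pool.Agent.Y120.H.GS1
import Pool.Agent.Q246.LN.Tor2

/-!
# One set of algebraic points at which equality of periods is decided by a few digits, for all families at once

Near a point `x = 0` of the base the periods of a family of varieties over `P¹`, defined over `ℚ`, are polynomials in
`log x`, in G-functions `h_1(x), …, h_r(x)` with rational coefficients and in constants (the periods of the limit motive).
There are countably many such families. We construct, for each `k` and each countable set `Γ` of constants, one set `S` of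
`k`-tuples of algebraic integers, which contains `100` percent of the tuples of degree at most `m` for every `m`, such that
for all connected families `h_1, …, h_k` (one for each point) and all `d` and `m`, with finitely many exceptions, all
tuples `α ∈ S` of degree at most `m` have the following properties at the points `x_j = 1 / α_j`.

* Two polynomials of degree at most `d` in `π`, `α_j`, `log α_j` and `h_(j,i)(1 / α_j)`, with integer coefficients of any
  size, have the same value if and only if they are formally equal, that is as functions on the product of the fibres of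
  the Zariski closures of the families and of the line of `π`.
* There is `B`, depending only on the families and on `d` and `m`, such that equality is decided by the comparison of
  approximations with error at most `H ^ (-B)`, for coefficients of absolute value at most `H`, for most `H` on the doubly
  logarithmic scale.
* Two polynomials of degree at most `d` in `α_j`, `log α_j`, `h_(j,i)(1 / α_j)` and constants `ζ_1, …, ζ_g ∈ Γ` have the
  same value if and only if this is an identity between the constants: they are equal, with these constants, on the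
  product of the fibres.

Proof (modules `Pool.Agent.Q246.OS`). Near relations in families (`Pool.Agent.Q246.LN`), in the form of
`Pool.Agent.Q189.MF` for several families, with the transcendence measure of `π`. The power series solutions of a linear
differential system over `ℤ[x]` form a countable set. A diagonal argument for countably many sets of density zero.
-/

set_option autoImplicit false

open PowerSeries Filter Topology

namespace Pool.Agent.Results.MP_bbe012_lc.OneSetForAllFamilies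

/-- an integer polynomial as a power series with rational coefficients -/
noncomputable def toQ (P : Polynomial ℤ) : PowerSeries ℚ := ((P.map (Int.castRingHom ℚ) : Polynomial ℚ) : PowerSeries ℚ)

/-- the power series `P(u^e)` -/
noncomputable def atPow (e : ℕ) (P : Polynomial ℤ) : PowerSeries ℂ :=
  ((Polynomial.expand ℂ e (P.map (Int.castRingHom ℂ)) : Polynomial ℂ) : PowerSeries ℂ)

/-- the matrices `G_s` over `ℤ[x]` with `T^s y^(s) = G_s y` for all solutions `y` of `T y' = A y` -/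
noncomputable def iter {r : ℕ} (T : Polynomial ℤ) (A : Fin r → Fin r → Polynomial ℤ) : ℕ → Fin r → Fin r → Polynomial ℤ
  | 0 => fun i j => if i = j then 1 else 0
  | s + 1 => fun i j => T * Polynomial.derivative (iter T A s i j) + ∑ l, iter T A s i l * A l j -
      (s : Polynomial ℤ) * (Polynomial.derivative T * iter T A s i j)

/-- The system `T y' = A y` has a fundamental matrix of solutions of the form `u^(-M) ∑_n Φ_n(u) (log u)^n` with
`u^e = x` and convergent power series `Φ_n`: the point `0` is an ordinary point or a regular singularity with rational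
exponents. -/
def QuasiUnipotent {r : ℕ} (T : Polynomial ℤ) (A : Fin r → Fin r → Polynomial ℤ) : Prop :=
  ∃ (e M : ℕ) (K : ℝ) (Φ : Matrix (Fin r) (Fin r) (Polynomial (PowerSeries ℂ))), 1 ≤ e ∧ Φ.det ≠ 0 ∧
    (∀ i j n m, ‖coeff m ((Φ i j).coeff n)‖ ≤ K ^ (m + 1)) ∧
    ∀ i j n, atPow e T * (X * PowerSeries.derivative ℂ ((Φ i j).coeff n) +
        ((n : PowerSeries ℂ) + 1) * (Φ i j).coeff (n + 1) - (M : PowerSeries ℂ) * (Φ i j).coeff n) =
      (e : PowerSeries ℂ) * X ^ e * ∑ l, atPow e (A i l) * (Φ l j).coeff n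

/-- `h_1, ..., h_r` are G-functions with rational coefficients which solve the differential system `T y' = A y`, with
the conditions of Siegel and Galochkin, and the system is regular with rational exponents at `0`. -/
structure GFamily {r : ℕ} (T : Polynomial ℤ) (A : Fin r → Fin r → Polynomial ℤ) (h : Fin r → PowerSeries ℚ) : Prop where
  /-- the denominator is not zero -/
  T_ne : T ≠ 0
  /-- the differential equations -/
  ode : ∀ i, toQ T * PowerSeries.derivative ℚ (h i) = ∑ j, toQ (A i j) * h j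
  /-- the coefficients have geometric growth -/
  size : ∃ C : ℝ, ∀ i m, |((coeff m (h i) : ℚ) : ℝ)| ≤ C ^ (m + 1)
  /-- the common denominators of the coefficients have geometric growth -/
  den : ∃ C : ℝ, ∀ m : ℕ, ∃ d : ℕ, 0 < d ∧ (d : ℝ) ≤ C ^ (m + 1) ∧ ∀ i, ∀ j ≤ m, ∃ a : ℤ, (d : ℚ) * coeff j (h i) = a
  /-- Galochkin's condition: the common denominators of the matrices `G_s / s!` have geometric growth -/
  galochkin : ∃ C : ℝ, ∀ m : ℕ, ∃ d : ℕ, 0 < d ∧ (d : ℝ) ≤ C ^ (m + 1) ∧ ∀ s ≤ m, ∀ i j,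
    ∃ H : Polynomial ℤ, (d : Polynomial ℤ) * iter T A s i j = (s.factorial : Polynomial ℤ) * H
  /-- the local exponents at `0` are rational and the singularity is regular -/
  regular : QuasiUnipotent T A

/-- The family is connected: every element of the field `ℚ(x, h_1, ..., h_r)` which is algebraic over `ℚ(x)` is in
`ℚ(x)`; the elements of this field are the quotients `A(h) / B(h)`, where `A`, `B` are polynomials over `ℚ[x]`. -/
def Connected {r : ℕ} (h : Fin r → PowerSeries ℚ) : Prop := ∀ A B : MvPolynomial (Fin r) (Polynomial ℚ),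
  IsAlgebraic (Polynomial ℚ) (algebraMap (PowerSeries ℚ) (FractionRing (PowerSeries ℚ)) (MvPolynomial.aeval h A) /
    algebraMap (PowerSeries ℚ) (FractionRing (PowerSeries ℚ)) (MvPolynomial.aeval h B)) →
  ∃ a b : Polynomial ℚ, b ≠ 0 ∧ algebraMap (PowerSeries ℚ) (FractionRing (PowerSeries ℚ)) (MvPolynomial.aeval h A) /
    algebraMap (PowerSeries ℚ) (FractionRing (PowerSeries ℚ)) (MvPolynomial.aeval h B) =
      algebraMap (Polynomial ℚ) (FractionRing (PowerSeries ℚ)) a /
        algebraMap (Polynomial ℚ) (FractionRing (PowerSeries ℚ)) b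

/-- the algebraic integers of degree at most `m` all of whose conjugates have absolute value at most `T` -/
def Ints (m T : ℕ) : Set ℂ :=
  {α | IsIntegral ℤ α ∧ (minpoly ℚ α).natDegree ≤ m ∧ ∀ z : ℂ, Polynomial.aeval z (minpoly ℚ α) = 0 → ‖z‖ ≤ T}

/-- the value `h_i(1 / α)` -/
noncomputable def value {r : ℕ} (h : Fin r → PowerSeries ℚ) (α : ℂ) (i : Fin r) : ℂ :=
  ∑' n : ℕ, ((coeff n (h i) : ℚ) : ℂ) * (1 / α) ^ n

/-- the `k`-tuples of algebraic integers of degree at most `m` all of whose conjugates have absolute value at most `T` -/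
def Tuples (k m T : ℕ) : Set (Fin k → ℂ) := {α | ∀ j, α j ∈ Ints m T}

/-- the coordinates: `none` is for `log α_j`, `some i` is for `h_(j,i)(1 / α_j)` -/
abbrev Coord {k : ℕ} (r : Fin k → ℕ) : Type := Σ j : Fin k, Option (Fin (r j))

/-- the point with the coordinates `ℓ_j` and `h_(j,i)(1 / α_j)` -/
noncomputable def point {k : ℕ} {r : Fin k → ℕ} (h : ∀ j, Fin (r j) → PowerSeries ℚ) (α ℓ : Fin k → ℂ) : Coord r → ℂ :=
  fun a => a.2.elim (ℓ a.1) fun i => value (h a.1) (α a.1) i

/-- the common zeros of the specialisations at `x = 1 / α` of all polynomial relations `R(x, h(x)) = 0` over `ℚ[x]` -/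
def Fibre {r : ℕ} (h : Fin r → PowerSeries ℚ) (α : ℂ) : Set (Fin r → ℂ) :=
  {y | ∀ R : MvPolynomial (Fin r) (Polynomial ℚ), MvPolynomial.aeval h R = 0 →
    MvPolynomial.eval₂ (Polynomial.aeval (1 / α) : Polynomial ℚ →ₐ[ℚ] ℂ).toRingHom y R = 0}

/-- the product of the fibres at `1 / α_j` and of `k` lines, on which the logarithms vary freely -/
def Fibres {k : ℕ} {r : Fin k → ℕ} (h : ∀ j, Fin (r j) → PowerSeries ℚ) (α : Fin k → ℂ) : Set (Coord r → ℂ) :=
  {y | ∀ j, (fun i => y ⟨j, some i⟩) ∈ Fibre (h j) (α j)}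

/-- the point with the coordinates `z` and `α_j` -/
def pt {k : ℕ} (z : ℂ) (α : Fin k → ℂ) : Option (Fin k) → ℂ := fun o => o.elim z α

/-- the expressions: polynomials over `ℤ` in variables for `log α_j`, `h_(j,i)(1 / α_j)`, `π` and `α_j` -/
abbrev Expression {k : ℕ} (r : Fin k → ℕ) : Type := MvPolynomial (Coord r ⊕ Option (Fin k)) ℤ

/-- the value of an expression -/
noncomputable def val {k : ℕ} {r : Fin k → ℕ} (h : ∀ j, Fin (r j) → PowerSeries ℚ) (α ℓ : Fin k → ℂ)
    (P : Expression r) : ℂ :=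
  MvPolynomial.aeval (Sum.elim (point h α ℓ) (pt (Real.pi : ℂ) α)) P

/-- The expressions are equal as functions on the product of the fibres, with a free variable in the place of `π`. -/
def FormallyEqual {k : ℕ} {r : Fin k → ℕ} (h : ∀ j, Fin (r j) → PowerSeries ℚ) (α : Fin k → ℂ) (P Q : Expression r) :
    Prop :=
  ∀ y ∈ Fibres h α, ∀ z : ℂ, MvPolynomial.aeval (Sum.elim y (pt z α)) P = MvPolynomial.aeval (Sum.elim y (pt z α)) Q

/-- Two expressions of degree at most `d` have the same value if and only if they are formally equal, for all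
determinations `ℓ_j` of `log α_j`. -/
def Exact {k : ℕ} {r : Fin k → ℕ} (h : ∀ j, Fin (r j) → PowerSeries ℚ) (d : ℕ) (α : Fin k → ℂ) : Prop :=
  ∀ ℓ : Fin k → ℂ, (∀ j, Complex.exp (ℓ j) = α j) → ∀ P Q : Expression r, P.totalDegree ≤ d → Q.totalDegree ≤ d →
    (val h α ℓ P = val h α ℓ Q ↔ FormallyEqual h α P Q)

/-- The comparison of approximations with error at most `H ^ (-B)` decides whether two expressions of degree at most `d`
with coefficients of absolute value at most `H` have the same value, for all determinations `ℓ_j` of `log α_j` with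
`|ℓ_j| ≤ H`. -/
def Correct {k : ℕ} {r : Fin k → ℕ} (h : ∀ j, Fin (r j) → PowerSeries ℚ) (d B : ℕ) (α : Fin k → ℂ) (H : ℝ) : Prop :=
  ∀ ℓ : Fin k → ℂ, (∀ j, Complex.exp (ℓ j) = α j) → (∀ j, ‖ℓ j‖ ≤ H) →
    ∀ P Q : Expression r, P.totalDegree ≤ d → Q.totalDegree ≤ d → (∀ e, |((P.coeff e : ℤ) : ℝ)| ≤ H) →
    (∀ e, |((Q.coeff e : ℤ) : ℝ)| ≤ H) → ∀ u v : ℂ, H ^ B * ‖u - val h α ℓ P‖ ≤ 1 → H ^ B * ‖v - val h α ℓ Q‖ ≤ 1 →
      (val h α ℓ P = val h α ℓ Q ↔ H ^ B * ‖u - v‖ ≤ 2)

/-- Two polynomials of degree at most `d` over `ℤ` in `log α_j`, `h_(j,i)(1 / α_j)`, the constants `ζ_1, …, ζ_g` and `α_j`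
have the same value if and only if they are equal, with these constants, on the product of the fibres. -/
def ExactOver {k g : ℕ} {r : Fin k → ℕ} (h : ∀ j, Fin (r j) → PowerSeries ℚ) (d : ℕ) (ζ : Fin g → ℂ) (α : Fin k → ℂ) :
    Prop :=
  ∀ ℓ : Fin k → ℂ, (∀ j, Complex.exp (ℓ j) = α j) → ∀ P Q : MvPolynomial (Coord r ⊕ (Fin g ⊕ Fin k)) ℤ,
    P.totalDegree ≤ d → Q.totalDegree ≤ d →
    (MvPolynomial.aeval (Sum.elim (point h α ℓ) (Sum.elim ζ α)) P =
      MvPolynomial.aeval (Sum.elim (point h α ℓ) (Sum.elim ζ α)) Q ↔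
      ∀ y ∈ Fibres h α, MvPolynomial.aeval (Sum.elim y (Sum.elim ζ α)) P = MvPolynomial.aeval (Sum.elim y (Sum.elim ζ α)) Q)

theorem iter_eq {r : ℕ} (T : Polynomial ℤ) (A : Fin r → Fin r → Polynomial ℤ) (s : ℕ) :
    iter T A s = Pool.Agent.Y120.GH.itm T A s := by
  induction s with
  | zero => rfl
  | succ s ih =>
    funext i j
    rw [iter, Pool.Agent.Y120.GH.itm, ih]

theorem qu_eq {r : ℕ} {T : Polynomial ℤ} {A : Fin r → Fin r → Polynomial ℤ} (h : QuasiUnipotent T A) :
    Pool.Agent.Y120.GH.QU0 T A := by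
  obtain ⟨e, M, K, Φ, he, hdet, hc, heq⟩ := h
  have he0 : e ≠ 0 := by omega
  refine ⟨e, he0, M, K, Φ, hc, fun i j n => ?_, hdet⟩
  have h1 := heq i j n
  simp only [atPow] at h1
  rw [Pool.Agent.Y120.GH.expand_poly he0]
  simp only [Pool.Agent.Y120.GH.expand_poly he0]
  exact h1

theorem GFamily.gfs {r : ℕ} {T : Polynomial ℤ} {A : Fin r → Fin r → Polynomial ℤ} {h : Fin r → PowerSeries ℚ}
    (hG : GFamily T A h) : Pool.Agent.Y916.Af.GFs T A h := by
  refine ⟨hG.T_ne, hG.ode, hG.size, Pool.Agent.Y120.GH.gsys_of (T := T) (A := A) hG.ode hG.size hG.den ?_, qu_eq hG.regular⟩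
  obtain ⟨C, hC⟩ := hG.galochkin
  refine ⟨C, fun m => ?_⟩
  obtain ⟨d, h1, h2, h3⟩ := hC m
  refine ⟨d, h1, h2, fun s hs i' j' => ?_⟩
  rw [← iter_eq]
  exact h3 s hs i' j'

/-- the connected families -/
abbrev Fam (k : ℕ) : Type := Σ r : Fin k → ℕ, Σ D : (Fin k → Polynomial ℤ) × (∀ j, Fin (r j) → Fin (r j) → Polynomial ℤ),
  {h : ∀ j, Fin (r j) → PowerSeries ℚ // ∀ j, GFamily (D.1 j) (D.2 j) (h j) ∧ Connected (h j)}

theorem countable_fam (k : ℕ) : Countable (Fam k) := by
  classical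
  have hpoly : Countable (Polynomial ℤ) :=
    Cardinal.mk_le_aleph0_iff.1 (Polynomial.cardinalMk_le_max.trans (by simp))
  have h1 : ∀ (r : Fin k → ℕ) (D : (Fin k → Polynomial ℤ) × (∀ j, Fin (r j) → Fin (r j) → Polynomial ℤ)),
      Countable {h : ∀ j, Fin (r j) → PowerSeries ℚ // ∀ j, GFamily (D.1 j) (D.2 j) (h j) ∧ Connected (h j)} := by
    intro r D
    by_cases hD : ∀ j, D.1 j ≠ 0
    · have h2 : ∀ j, Countable (Pool.Agent.Q246.OS.Sol (toQ (D.1 j)) (fun a b => toQ (D.2 j a b))) := by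
        intro j
        refine Pool.Agent.Q246.OS.countable_sol ?_ _
        unfold toQ
        intro h3
        have h4 := (Polynomial.coe_eq_zero_iff).1 h3
        exact hD j ((Polynomial.map_eq_zero_iff (RingHom.injective_int _)).1 h4)
      have h3 : Function.Injective (fun (h : {h : ∀ j, Fin (r j) → PowerSeries ℚ //
          ∀ j, GFamily (D.1 j) (D.2 j) (h j) ∧ Connected (h j)}) (j : Fin k) =>
          (⟨h.1 j, fun i => (h.2 j).1.ode i⟩ : Pool.Agent.Q246.OS.Sol (toQ (D.1 j)) (fun a b => toQ (D.2 j a b)))) := by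
        intro h h' hh
        apply Subtype.ext
        funext j
        have := congrArg Subtype.val (congrFun hh j)
        exact this
      exact h3.countable
    · have : IsEmpty {h : ∀ j, Fin (r j) → PowerSeries ℚ // ∀ j, GFamily (D.1 j) (D.2 j) (h j) ∧ Connected (h j)} :=
        ⟨fun h => hD fun j => (h.2 j).1.T_ne⟩
      infer_instance
  infer_instance

/-- For each `k` and each countable set `Γ` of complex numbers there is a set `S` of `k`-tuples of algebraic integers, which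
contains `100` percent of the tuples of degree at most `m`, for every `m ≥ 1`, such that for all connected families
`h_1, …, h_k` of G-functions and all `d` and `m`: (1) all but finitely many of the tuples `α ∈ S` of degree at most `m` have
the property `Exact`; (2) there is `B` such that for every `ε > 0`, for all but finitely many of the tuples `α ∈ S` of
degree at most `m` there are arbitrarily large `N` such that `Correct` holds for all `H ∈ [2 ^ (2 ^ s), 2 ^ (2 ^ (s + 1))]`,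
for all but at most `ε N` of the `s < N`; (3) for all `ζ_1, …, ζ_g ∈ Γ`, all but finitely many of the tuples `α ∈ S` of
degree at most `m` have the property `ExactOver`. -/
theorem result (k : ℕ) (Γ : Set ℂ) (hΓ : Γ.Countable) : ∃ S : Set (Fin k → ℂ),
    (∀ m : ℕ, 1 ≤ m → Tendsto (fun T : ℕ => (((S ∩ Tuples k m T).ncard : ℕ) : ℝ) / ((Tuples k m T).ncard : ℕ)) atTop
      (𝓝 1)) ∧
    ∀ (r : Fin k → ℕ) (T₀ : Fin k → Polynomial ℤ) (A : ∀ j, Fin (r j) → Fin (r j) → Polynomial ℤ)
      (h : ∀ j, Fin (r j) → PowerSeries ℚ), (∀ j, GFamily (T₀ j) (A j) (h j)) → (∀ j, Connected (h j)) → ∀ d m : ℕ,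
      (∃ T₁ : ℕ, ∀ α ∈ S, (∃ T, α ∈ Tuples k m T) → α ∉ Tuples k m T₁ → Exact h d α) ∧
      (∃ B : ℕ, ∀ ε : ℝ, 0 < ε → ∃ T₁ : ℕ, ∀ α ∈ S, (∃ T, α ∈ Tuples k m T) → α ∉ Tuples k m T₁ →
        ∀ N₀ : ℕ, ∃ N, N₀ ≤ N ∧ (({s : ℕ | s < N ∧ ¬ ∀ H : ℝ, 2 ^ (2 ^ s) ≤ H → H ≤ 2 ^ (2 ^ (s + 1)) →
          Correct h d B α H}.ncard : ℕ) : ℝ) ≤ ε * N) ∧
      ∀ (g : ℕ) (ζ : Fin g → ℂ), (∀ i, ζ i ∈ Γ) → ∃ T₁ : ℕ, ∀ α ∈ S, (∃ T, α ∈ Tuples k m T) → α ∉ Tuples k m T₁ →
        ExactOver h d ζ α := by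
  classical
  have hcf := countable_fam k
  have hcΓ : Countable Γ := hΓ
  have hπ := Pool.Agent.TH456.TM.measT_pi
  -- the data of a family
  have hfam : ∀ (F : Fam k) (j : Fin k), Pool.Agent.Q246.AF.FAMN (F.2.2.1 j) := fun F j =>
    Pool.Agent.Q246.AF.t_famN (F.2.2.2 j).1.gfs
  choose B C c hc hB using fun (F : Fam k) (d m : ℕ) =>
    Pool.Agent.Q246.OS.cor_fam (hfam F) (fun j => (F.2.2.2 j).1.size) (fun j => (F.2.2.2 j).2) (m + 1) d (by omega) hπ
  choose C' c' hc' hC' using fun (F : Fam k) (d m : ℕ) (z : Σ g : ℕ, Fin g → Γ) =>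
    Pool.Agent.Q246.OS.rel_fam (hfam F) (fun j => (F.2.2.2 j).1.size) (fun j => (F.2.2.2 j).2)
      (fun i => ((z.2 i : Γ) : ℂ)) (m + 1) d (by omega)
  obtain ⟨S, hS1, hS2⟩ := Pool.Agent.Q246.OS.one_set_pr (k := k)
    (ι := (Fam k × ℕ × ℕ) ⊕ (Fam k × ℕ × ℕ × (Σ g : ℕ, Fin g → Γ)))
    (fun i => i.elim (fun p => p.2.2 + 1) fun p => p.2.2.1 + 1)
    (fun i => by rcases i with p | p <;> simp)
    (fun i => i.elim (fun p x H => Pool.Agent.Q246.OS.CorT p.1.2.2.1 p.2.1 (B p.1 p.2.1 p.2.2) (Real.pi : ℂ) x H)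
      fun p x H => Pool.Agent.Q246.OS.RelP p.1.2.2.1 p.2.1 (fun i => ((p.2.2.2.2 i : Γ) : ℂ)) x H)
    (fun i => i.elim (fun p => C p.1 p.2.1 p.2.2) fun p => C' p.1 p.2.1 p.2.2.1 p.2.2.2)
    (fun i => i.elim (fun p => c p.1 p.2.1 p.2.2) fun p => c' p.1 p.2.1 p.2.2.1 p.2.2.2)
    (fun i => by
      rcases i with p | p
      · exact hc p.1 p.2.1 p.2.2
      · exact hc' p.1 p.2.1 p.2.2.1 p.2.2.2)
    (fun i => by
      rcases i with p | p
      · exact hB p.1 p.2.1 p.2.2
      · exact hC' p.1 p.2.1 p.2.2.1 p.2.2.2)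
  refine ⟨S, hS1, fun r T₀ A h hG hconn d m => ?_⟩
  set F : Fam k := ⟨r, (T₀, A), h, fun j => ⟨hG j, hconn j⟩⟩ with hF
  -- from exact degrees to all degrees
  have glue : ∀ (Q : ℕ → (Fin k → ℂ) → Prop), (∀ m' : ℕ, ∃ T₁ : ℕ, ∀ x ∈ S, (∃ T, x ∈ Pool.Agent.Q246.OS.Tup k (m' + 1) T) →
      (∀ T, x ∉ Pool.Agent.Q246.OS.Tup k (m' + 1 - 1) T) → x ∉ Pool.Agent.Q246.OS.Tup k (m' + 1) T₁ → Q m' x) →
      ∃ T₁ : ℕ, ∀ α ∈ S, (∃ T, α ∈ Tuples k m T) → α ∉ Tuples k m T₁ → ∃ m', m' < m ∧ Q m' α := by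
    intro Q hQ
    choose t ht using hQ
    refine ⟨∑ m' ∈ Finset.range m, t m', fun α hα hex hno => ?_⟩
    obtain ⟨T, hT⟩ := hex
    rcases Nat.eq_zero_or_pos k with hk | hk
    · exfalso
      subst hk
      exact hno fun j => j.elim0
    · obtain ⟨m', h1, h2, h3, h4⟩ := Pool.Agent.Q246.OS.exact_deg hk (x := α) (m := m) (T := T) hT
      obtain ⟨m'', rfl⟩ : ∃ m'', m' = m'' + 1 := ⟨m' - 1, by omega⟩
      refine ⟨m'', by omega, ht m'' α hα h3 h4 fun h5 => hno ?_⟩
      exact Pool.Agent.Q246.OS.tup_mono k (m'' + 1) m (t m'') _ (by omega)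
        (Finset.single_le_sum (f := t) (fun _ _ => Nat.zero_le _) (Finset.mem_range.2 (by omega))) h5
  -- the exact statement at a tuple
  have hex : ∀ (m' : ℕ) (x : Fin k → ℂ), Pool.Agent.Q246.OS.Pr (Pool.Agent.Q246.OS.CorT h d (B F d m') (Real.pi : ℂ) x) (1 / 2) →
      Exact h d x := by
    intro m' x hx ℓ hℓ P Q hP hQ
    obtain ⟨H, hH, hg⟩ := hx.large (∑ j, ‖ℓ j‖ + ∑ e ∈ P.support, |((P.coeff e : ℤ) : ℝ)| + ∑ e ∈ Q.support, |((Q.coeff e : ℤ) : ℝ)|)
    have h1 : 0 ≤ ∑ j, ‖ℓ j‖ := Finset.sum_nonneg fun _ _ => norm_nonneg _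
    have h2 : 0 ≤ ∑ e ∈ P.support, |((P.coeff e : ℤ) : ℝ)| := Finset.sum_nonneg fun _ _ => abs_nonneg _
    have h3 : 0 ≤ ∑ e ∈ Q.support, |((Q.coeff e : ℤ) : ℝ)| := Finset.sum_nonneg fun _ _ => abs_nonneg _
    have h4 : ∀ j, ‖ℓ j‖ ≤ H := fun j => by
      have := Finset.single_le_sum (f := fun j => ‖ℓ j‖) (fun _ _ => norm_nonneg _) (Finset.mem_univ j)
      linarith
    have h5 : ∀ R : Expression r, (∑ e ∈ R.support, |((R.coeff e : ℤ) : ℝ)|) ≤ H → ∀ e, |((R.coeff e : ℤ) : ℝ)| ≤ H := by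
      intro R hR e
      by_cases he : e ∈ R.support
      · exact (Finset.single_le_sum (f := fun e => |((R.coeff e : ℤ) : ℝ)|) (fun _ _ => abs_nonneg _) he).trans hR
      · rw [MvPolynomial.notMem_support_iff.1 he]
        simp only [Int.cast_zero, abs_zero]
        linarith
    exact (hg ℓ hℓ h4 P Q ⟨hP, h5 P (by linarith)⟩ ⟨hQ, h5 Q (by linarith)⟩).1
  refine ⟨?_, ?_, ?_⟩
  · obtain ⟨T₁, h1⟩ := glue (fun m' x => Pool.Agent.Q246.OS.Pr (Pool.Agent.Q246.OS.CorT h d (B F d m') (Real.pi : ℂ) x) (1 / 2))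
      (fun m' => hS2 (Sum.inl (F, d, m')) (1 / 2) (by norm_num))
    refine ⟨T₁, fun α hα h2 h3 => ?_⟩
    obtain ⟨m', -, h4⟩ := h1 α hα h2 h3
    exact hex m' α h4
  · refine ⟨∑ m' ∈ Finset.range m, B F d m', fun ε hε => ?_⟩
    obtain ⟨T₁, h1⟩ := glue (fun m' x => Pool.Agent.Q246.OS.Pr (Pool.Agent.Q246.OS.CorT h d (B F d m') (Real.pi : ℂ) x) ε)
      (fun m' => hS2 (Sum.inl (F, d, m')) ε hε)
    refine ⟨T₁, fun α hα h2 h3 => ?_⟩
    obtain ⟨m', hm', h4⟩ := h1 α hα h2 h3
    refine h4.mono (fun H hH hg => ?_) le_rfl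
    have h5 := hg.mono_B hH (Finset.single_le_sum (f := fun m' => B F d m') (fun _ _ => Nat.zero_le _)
      (Finset.mem_range.2 hm'))
    intro ℓ hℓ hℓH P Q hP hQ hPH hQH u v hu hv
    exact (h5 ℓ hℓ hℓH P Q ⟨hP, hPH⟩ ⟨hQ, hQH⟩).2 u v hu hv
  · intro g ζ hζ
    obtain ⟨T₁, h1⟩ := glue (fun _ x => Pool.Agent.Q246.OS.Pr (Pool.Agent.Q246.OS.RelP h d ζ x) (1 / 2))
      (fun m' => hS2 (Sum.inr (F, d, m', ⟨g, fun i => ⟨ζ i, hζ i⟩⟩)) (1 / 2) (by norm_num))
    refine ⟨T₁, fun α hα h2 h3 => ?_⟩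
    obtain ⟨m', -, h4⟩ := h1 α hα h2 h3
    intro ℓ hℓ P Q hP hQ
    obtain ⟨H, hH, hg⟩ := h4.large (∑ j, ‖ℓ j‖ + ∑ e ∈ (P - Q).support, |(((P - Q).coeff e : ℤ) : ℝ)|)
    have h5 : 0 ≤ ∑ j, ‖ℓ j‖ := Finset.sum_nonneg fun _ _ => norm_nonneg _
    have h6 : 0 ≤ ∑ e ∈ (P - Q).support, |(((P - Q).coeff e : ℤ) : ℝ)| := Finset.sum_nonneg fun _ _ => abs_nonneg _
    have h7 : ∀ j, ‖ℓ j‖ ≤ H := fun j => by
      have := Finset.single_le_sum (f := fun j => ‖ℓ j‖) (fun _ _ => norm_nonneg _) (Finset.mem_univ j)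
      linarith
    have h8 : ∀ e, |(((P - Q).coeff e : ℤ) : ℝ)| ≤ H := by
      intro e
      by_cases he : e ∈ (P - Q).support
      · have := Finset.single_le_sum (f := fun e => |(((P - Q).coeff e : ℤ) : ℝ)|) (fun _ _ => abs_nonneg _) he
        linarith
      · rw [MvPolynomial.notMem_support_iff.1 he]
        simp only [Int.cast_zero, abs_zero]
        linarith
    have h9 := hg ℓ hℓ h7 (P - Q) ((MvPolynomial.totalDegree_sub _ _).trans (max_le hP hQ)) h8
    rw [map_sub, sub_eq_zero] at h9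
    refine h9.trans ?_
    refine forall₂_congr fun y _ => ?_
    rw [map_sub, sub_eq_zero]

end Pool.Agent.Results.MP_bbe012_lc.OneSetForAllFamilies
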